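import Pool.Agent.Helper51.BW.Spec2

namespace Pool.Agent.Helper87.BW
open MeasureTheory Filter Topology Pool.Agent.Helper51.BW

variable {d : ℕ}

lemma dir_abs (e : D d) (c : Fin d) : |(dir e c : ℝ)| ≤ 1 := by
  unfold dir
  by_cases hc : c = e.1
  · subst hc; rw [Pi.single_eq_same]; split_ifs <;> simp
  · rw [Pi.single_eq_of_ne hc]; simp

lemma path_diff {S : ℕ → V d} (hS : PathHyp S) (j k : ℕ) (c : Fin d) :
    |(((S j - S (j + k)) c : ℤ) : ℝ)| ≤ k := by
  induction k with
  | zero => simp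
  | succ k ih =>
    obtain ⟨e, he⟩ := hS.2 (j + k)
    have h1 : (((S j - S (j + (k + 1))) c : ℤ) : ℝ) =
        (((S j - S (j + k)) c : ℤ) : ℝ) - (dir e c : ℝ) := by
      rw [← add_assoc, he]
      simp only [Pi.sub_apply, Pi.add_apply]
      push_cast
      ring
    rw [h1]
    have h2 := abs_sub (((S j - S (j + k)) c : ℤ) : ℝ) (dir e c : ℝ)
    have h3 := dir_abs e c
    push_cast
    linarith

lemma ip_bound (h : Fin d → ℝ) {S : ℕ → V d} (hS : PathHyp S) (j k : ℕ) :
    ip h (S j - S (j + k)) ≤ (∑ c, |h c|) * k := by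
  unfold ip
  rw [Finset.sum_mul]
  refine Finset.sum_le_sum fun c _ => ?_
  calc h c * (((S j - S (j + k)) c : ℤ) : ℝ) ≤ |h c * (((S j - S (j + k)) c : ℤ) : ℝ)| :=
        le_abs_self _
    _ = |h c| * |(((S j - S (j + k)) c : ℤ) : ℝ)| := abs_mul _ _
    _ ≤ |h c| * k := mul_le_mul_of_nonneg_left (path_diff hS j k c) (abs_nonneg _)

/-- the bound of the levels -/
noncomputable def KB (W : Finset ℕ) (h : Fin d → ℝ) (κ : ℝ) : ℝ :=
  κ * (W.card * Real.exp ((∑ c, |h c|) * (W.sup id : ℕ))) + 1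

lemma lvl_bound (W : Finset ℕ) (h : Fin d → ℝ) {κ : ℝ} (hκ : 0 < κ)
    (Th : ℕ → (ℕ → V d) → Prop) (j : ℕ) {S : ℕ → V d} (hS : PathHyp S) :
    0 ≤ (lvl W h κ Th j S : ℝ) ∧ (lvl W h κ Th j S : ℝ) ≤ KB W h κ := by
  classical
  refine ⟨by positivity, ?_⟩
  have h0 : 0 ≤ κ * (W.card * Real.exp ((∑ c, |h c|) * (W.sup id : ℕ))) := by positivity
  unfold lvl KB
  split_ifs with hne
  · push_cast
    have h1 : κ * ∑ k ∈ KKs W Th S, Real.exp (ip h (S j - S (j + k))) ≤
        κ * (W.card * Real.exp ((∑ c, |h c|) * (W.sup id : ℕ))) := by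
      refine mul_le_mul_of_nonneg_left ?_ hκ.le
      have h2 : ∀ k ∈ KKs W Th S, Real.exp (ip h (S j - S (j + k))) ≤
          Real.exp ((∑ c, |h c|) * (W.sup id : ℕ)) := by
        intro k hk
        apply Real.exp_le_exp.2
        refine (ip_bound h hS j k).trans ?_
        refine mul_le_mul_of_nonneg_left ?_ (Finset.sum_nonneg fun c _ => abs_nonneg _)
        have hkW : k ∈ W := (Finset.mem_filter.1 hk).1
        have : k ≤ W.sup id := Finset.le_sup (f := id) hkW
        exact_mod_cast this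
      refine (Finset.sum_le_card_nsmul _ _ _ h2).trans ?_
      rw [nsmul_eq_mul]
      refine mul_le_mul_of_nonneg_right ?_ (Real.exp_pos _).le
      exact_mod_cast Finset.card_le_card (Finset.filter_subset _ _)
    have h3 := Nat.floor_le (a := κ * ∑ k ∈ KKs W Th S, Real.exp (ip h (S j - S (j + k))))
      (by positivity)
    linarith
  · push_cast
    linarith

lemma lvl_congr (W : Finset ℕ) (h : Fin d → ℝ) (κ : ℝ) {Th Th' : ℕ → (ℕ → V d) → Prop} (j : ℕ)
    {S S' : ℕ → V d} (h1 : ∀ k ∈ W, Th k S ↔ Th' k S')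
    (h2 : ∀ k ∈ W, S j - S (j + k) = S' j - S' (j + k)) :
    lvl W h κ Th j S = lvl W h κ Th' j S' := by
  classical
  have hK : KKs W Th S = KKs W Th' S' := by
    unfold KKs
    exact Finset.filter_congr h1
  unfold lvl
  rw [hK]
  have hs : ∑ k ∈ KKs W Th' S', Real.exp (ip h (S j - S (j + k))) =
      ∑ k ∈ KKs W Th' S', Real.exp (ip h (S' j - S' (j + k))) :=
    Finset.sum_congr rfl fun k hk => by rw [h2 k (Finset.mem_filter.1 hk).1]
  rw [hs]

lemma diff_congr {S S' : ℕ → V d} {j k : ℕ}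
    (h : ∀ t, j ≤ t → t < j + k → S (t + 1) - S t = S' (t + 1) - S' t) :
    S j - S (j + k) = S' j - S' (j + k) := by
  induction k with
  | zero => simp
  | succ k ih =>
    have h1 := ih fun t ht ht' => h t ht (by omega)
    have h2 := h (j + k) (by omega) (by omega)
    rw [← add_assoc]
    have h3 : S j - S (j + k + 1) = (S j - S (j + k)) - (S (j + k + 1) - S (j + k)) := by abel
    have h4 : S' j - S' (j + k + 1) = (S' j - S' (j + k)) - (S' (j + k + 1) - S' (j + k)) := by abel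
    rw [h3, h4, h1, h2]

lemma sig0_le {Ω : Type} [m : MeasurableSpace Ω] {X : ℕ → ℕ → Ω → V d}
    (hX : ∀ i n, Measurable (X i n)) : sig0 X ≤ m := by
  unfold sig0
  exact iSup_le fun s => (hX 0 s).comap_le

lemma lvl_meas {Ω : Type} [MeasurableSpace Ω] {X : ℕ → ℕ → Ω → V d}
    (hX : ∀ i n, Measurable (X i n)) (W : Finset ℕ) (h : Fin d → ℝ) (κ : ℝ)
    (Th : ℕ → (ℕ → V d) → Prop) (j : ℕ)
    (hTh : ∀ k ∈ W, MeasurableSet {ω | Th k (fun n => X 0 n ω)}) :
    Measurable (fun ω => (lvl W h κ Th j (fun n => X 0 n ω) : ℝ)) := by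
  classical
  have hc : ∀ k, Measurable (fun ω => Real.exp (ip h (X 0 j ω - X 0 (j + k) ω))) := by
    intro k
    refine Real.measurable_exp.comp ?_
    exact (measurable_of_countable (fun z : V d => ip h z)).comp ((hX 0 j).sub (hX 0 (j + k)))
  have h1 : Measurable (fun ω => ∑ k ∈ W,
      if Th k (fun n => X 0 n ω) then Real.exp (ip h (X 0 j ω - X 0 (j + k) ω)) else 0) := by
    refine Finset.measurable_fun_sum _ fun k hk => ?_
    exact Measurable.ite (hTh k hk) (hc k) measurable_const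
  have h2 : MeasurableSet {ω | (KKs W Th (fun n => X 0 n ω)).Nonempty} := by
    have : {ω | (KKs W Th (fun n => X 0 n ω)).Nonempty} =
        ⋃ k ∈ W, {ω | Th k (fun n => X 0 n ω)} := by
      ext ω
      simp only [Set.mem_setOf_eq, Set.mem_iUnion, exists_prop, KKs, Finset.Nonempty,
        Finset.mem_filter]
    rw [this]
    exact Finset.measurableSet_biUnion _ hTh
  have h3 : (fun ω => (lvl W h κ Th j (fun n => X 0 n ω) : ℝ)) = fun ω =>
      if (KKs W Th (fun n => X 0 n ω)).Nonempty then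
        ((⌊κ * ∑ k ∈ W, if Th k (fun n => X 0 n ω) then
          Real.exp (ip h (X 0 j ω - X 0 (j + k) ω)) else 0⌋₊ : ℕ) : ℝ) + 1
      else 0 := by
    funext ω
    unfold lvl
    rw [← Finset.sum_filter]
    split_ifs with hne
    · push_cast
      rfl
    · simp
  rw [h3]
  refine Measurable.ite h2 ?_ measurable_const
  refine Measurable.add_const ?_ 1
  exact (measurable_of_countable (fun n : ℕ => (n : ℝ))).comp
    (Nat.measurable_floor.comp (h1.const_mul κ))

theorem LOCL.main (hRETB : S_RETB) (hREG2 : S_REG2) : S_LOCL := by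
  intro d Ω _ μ _ p X hp hp1 hX a h W Th κ ha hκ hTh hLoc
  classical
  obtain ⟨ThL, A, hdep, himp, hret⟩ := hLoc
  have hTh' : ∀ j, ∀ k ∈ W, MeasurableSet {ω | Th j k (fun n => X 0 n ω)} := fun j k hk =>
    (sig0_le hX.meas) _ (hTh j k hk)
  have hKpos : 0 < KB W h κ := by unfold KB; positivity
  refine ⟨KB W h κ, fun j S hS => lvl_bound W h hκ (Th j) j hS,
    fun j => (lvl_meas hX.meas W h κ (Th j) j (hTh' j)).aestronglyMeasurable, fun δ hδ => ?_⟩
  obtain ⟨L0, hL0⟩ := hRETB d Ω μ p X hp hp1 hX a ha A (δ / KB W h κ) (by positivity)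
  obtain ⟨L, hL⟩ : ∃ L, L = max L0 (max A (W.sup id)) := ⟨_, rfl⟩
  have hLL0 : L0 ≤ L := by rw [hL]; exact le_max_left _ _
  have hLA : A ≤ L := by rw [hL]; exact (le_max_left _ _).trans (le_max_right _ _)
  have hLW : ∀ k ∈ W, k ≤ L := by
    intro k hk
    have : k ≤ W.sup id := Finset.le_sup (f := id) hk
    rw [hL]
    exact this.trans ((le_max_right _ _).trans (le_max_right _ _))
  refine ⟨L, fun j S => (lvl W h κ (ThL L j) j S : ℝ), ?_, ?_, ?_⟩
  · intro j S S' hSS'
    have h1 := lvl_congr W h κ (Th := ThL L j) (Th' := ThL L j) j (S := S) (S' := S')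
      (fun k hk => by
        have := hdep L j k hk hLA S S' hSS'
        exact iff_of_eq this)
      (fun k hk => diff_congr fun t ht ht' => hSS' t (by omega) (by have := hLW k hk; omega))
    simp only
    rw [h1]
  · intro j S hS
    exact lvl_bound W h hκ (ThL L j) j hS
  · intro j
    obtain ⟨Ev, hEv⟩ : ∃ Ev : Set Ω, Ev = {ω | ∃ s t, s ≤ j + A ∧ j ≤ t + A ∧ s + L ≤ t + A ∧
      X 0 s ω = X 0 t ω} := ⟨_, rfl⟩
    have hEvm : MeasurableSet Ev := by
      have : Ev = ⋃ (s : ℕ) (t : ℕ) (_ : s ≤ j + A ∧ j ≤ t + A ∧ s + L ≤ t + A),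
          {ω | X 0 s ω = X 0 t ω} := by
        rw [hEv]
        ext ω
        simp only [Set.mem_ofPred_eq, Set.mem_iUnion, exists_prop]
        constructor
        · rintro ⟨s, t, h1, h2, h3, h4⟩; exact ⟨s, t, ⟨h1, h2, h3⟩, h4⟩
        · rintro ⟨s, t, ⟨h1, h2, h3⟩, h4⟩; exact ⟨s, t, h1, h2, h3, h4⟩
      rw [this]
      refine MeasurableSet.iUnion fun s => MeasurableSet.iUnion fun t =>
        MeasurableSet.iUnion fun _ => measurableSet_eq_fun (hX.meas 0 s) (hX.meas 0 t)
    have hμE : μ Ev ≤ ENNReal.ofReal (δ / KB W h κ) := by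
      rw [hEv]; exact hL0 L hLL0 j
    have hint : Integrable (Ev.indicator fun _ => KB W h κ) μ :=
      (integrable_const _).indicator hEvm
    have hle : ∀ᵐ ω ∂μ, |(lvl W h κ (Th j) j (fun n => X 0 n ω) : ℝ) -
        (lvl W h κ (ThL L j) j (fun n => X 0 n ω) : ℝ)| ≤ (Ev.indicator fun _ => KB W h κ) ω := by
      filter_upwards [hREG2 d Ω μ p X hp hp1 hX] with ω hω
      have hS := hω.1 0
      by_cases hE : ω ∈ Ev
      · rw [Set.indicator_of_mem hE]
        obtain ⟨h1, h2⟩ := lvl_bound W h hκ (Th j) j hS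
        obtain ⟨h3, h4⟩ := lvl_bound W h hκ (ThL L j) j hS
        rw [abs_le]
        constructor <;> linarith
      · rw [Set.indicator_of_notMem hE]
        have h1 : ∀ k ∈ W, Th j k (fun n => X 0 n ω) ↔ ThL L j k (fun n => X 0 n ω) := by
          intro k hk
          refine ⟨himp L j k _ hk hLA, fun h2 => ?_⟩
          by_contra h3
          obtain ⟨s, t, h4, h5, h6, h7⟩ := hret L j k _ hk hLA hS h2 h3
          exact hE (by rw [hEv]; exact ⟨s, t, h4, h5, h6, h7⟩)
        rw [lvl_congr W h κ j h1 (fun _ _ => rfl), sub_self, abs_zero]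
    refine (integral_mono_of_nonneg (Eventually.of_forall fun ω => abs_nonneg _) hint hle).trans ?_
    rw [integral_indicator hEvm, setIntegral_const, smul_eq_mul]
    have h5 : μ.real Ev ≤ δ / KB W h κ := by
      unfold Measure.real
      refine (ENNReal.toReal_mono ENNReal.ofReal_ne_top hμE).trans ?_
      rw [ENNReal.toReal_ofReal (by positivity)]
    calc μ.real Ev * KB W h κ ≤ δ / KB W h κ * KB W h κ :=
          mul_le_mul_of_nonneg_right h5 hKpos.le
      _ = δ := by field_simp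

end Pool.Agent.Helper87.BW
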