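import Pool.Agent.Helper51.BW.Spec2

namespace Pool.Agent.Helper87.BW
open MeasureTheory Filter Topology Pool.Agent.Helper51.BW

variable {d : ℕ}

/-- the norm `|z|_1` -/
def n1 (z : V d) : ℤ := ∑ c, |z c|

lemma n1_dir (e : D d) : n1 (dir e) = 1 := by
  unfold n1 dir
  rw [Finset.sum_eq_single e.1]
  · rw [Pi.single_eq_same]; split_ifs <;> simp
  · intro c _ hc
    rw [Pi.single_eq_of_ne hc]; simp
  · intro h; exact absurd (Finset.mem_univ _) h

lemma n1_path {S : ℕ → V d} (hS : PathHyp S) (t : ℕ) : n1 (S t) ≤ t := by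
  induction t with
  | zero => rw [hS.1]; simp [n1]
  | succ t ih =>
    obtain ⟨e, he⟩ := hS.2 t
    have h1 : n1 (S (t + 1)) ≤ n1 (S t) + n1 (dir e) := by
      rw [he]
      unfold n1
      rw [← Finset.sum_add_distrib]
      exact Finset.sum_le_sum fun c _ => abs_add_le _ _
    rw [n1_dir] at h1
    push_cast
    linarith

/-- the first visit of the end of the bridge -/
lemma first_visit {S Y : ℕ → V d} {t b : ℕ} (hS : PathHyp S) (hY0 : Y 0 = 0)
    (hY : ∀ m, Trace S (Y m) (Y (m + 1))) (hcut : IsCut S b)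
    (hb : ((b : ℕ) : ℝ) < ∑ c, |(Y t c : ℝ)|) :
    ∃ n, n ≤ t ∧ Y n = S (b + 1) ∧ ∀ s < n, Y s ≠ S (b + 1) := by
  classical
  have hb' : (b : ℤ) < n1 (Y t) := by
    have : ((n1 (Y t) : ℤ) : ℝ) = ∑ c, |(Y t c : ℝ)| := by unfold n1; push_cast; rfl
    rw [← this] at hb
    exact_mod_cast hb
  have hex : ∃ n, ∀ s ≤ b, Y n ≠ S s := by
    refine ⟨t, fun s hs h => ?_⟩
    have h1 := n1_path hS s
    rw [← h] at h1
    have : (s : ℤ) ≤ b := by exact_mod_cast hs
    linarith
  obtain ⟨n, hn⟩ : ∃ n, n = Nat.find hex := ⟨_, rfl⟩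
  have hspec : ∀ s ≤ b, Y n ≠ S s := by rw [hn]; exact Nat.find_spec hex
  have hmin : ∀ m < n, ∃ s ≤ b, Y m = S s := by
    intro m hm
    have := Nat.find_min hex (hn ▸ hm)
    push Not at this
    exact this
  have hnt : n ≤ t := by
    rw [hn]
    refine Nat.find_min' hex fun s hs h => ?_
    have h1 := n1_path hS s
    rw [← h] at h1
    have : (s : ℤ) ≤ b := by exact_mod_cast hs
    linarith
  have hn0 : n ≠ 0 := by
    intro h
    exact hspec 0 (Nat.zero_le _) (by rw [h, hY0, hS.1])
  obtain ⟨m, rfl⟩ := Nat.exists_eq_succ_of_ne_zero hn0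
  obtain ⟨s0, hs0, hs0'⟩ := hmin m (Nat.lt_succ_self m)
  have hmain : Y (m + 1) = S (b + 1) := by
    obtain ⟨r, hr | hr⟩ := hY m
    · have h1 : b < r + 1 := by
        by_contra hcon
        exact hspec (r + 1) (by omega) hr.2.symm
      have h2 : ¬ b < r := by
        intro hlt
        exact hcut s0 r hs0 hlt (by rw [← hs0', ← hr.1])
      have h3 : r = b := by omega
      rw [← hr.2, h3]
    · have h1 : b < r := by
        by_contra hcon
        exact hspec r (by omega) hr.1.symm
      exact absurd (by rw [← hs0', ← hr.2]) (hcut s0 (r + 1) hs0 (by omega))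
  refine ⟨m + 1, hnt, hmain, fun s hs h => ?_⟩
  obtain ⟨s1, hs1, hs1'⟩ := hmin s hs
  exact hcut s1 (b + 1) hs1 (by omega) (by rw [← hs1', h])

theorem DET2.main : S_DET2 := by
  intro d S Y t J l b hS hY0 hY hJ
  classical
  have h1 : ∀ j ∈ J, (l j : ℝ) * ind (¬ VisB Y (l j) (S j) (S (b j + 1))) ≤
      (((Finset.range t).filter (fun s => Y s = S j)).card : ℝ) := by
    intro j hj
    obtain ⟨_, _, hcut, hb⟩ := hJ j hj
    by_cases hV : VisB Y (l j) (S j) (S (b j + 1))
    · have : ind (¬ VisB Y (l j) (S j) (S (b j + 1))) = 0 := by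
        unfold ind; rw [if_neg (not_not.2 hV)]
      rw [this, mul_zero]
      positivity
    · have h2 : ind (¬ VisB Y (l j) (S j) (S (b j + 1))) = 1 := by
        unfold ind; rw [if_pos hV]
      rw [h2, mul_one]
      obtain ⟨n, hnt, hn, hfirst⟩ := first_visit hS hY0 hY hcut hb
      have h3 : l j ≤ ((Finset.range n).filter (fun s => Y s = S j)).card := by
        by_contra hcon
        exact hV ⟨n, hn, hfirst, not_le.1 hcon⟩
      have h4 : ((Finset.range n).filter (fun s => Y s = S j)).card ≤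
          ((Finset.range t).filter (fun s => Y s = S j)).card :=
        Finset.card_le_card (Finset.filter_subset_filter _ (Finset.range_mono hnt))
      exact_mod_cast h3.trans h4
  refine (Finset.sum_le_sum h1).trans ?_
  have hinj : ∀ j ∈ J, ∀ j' ∈ J, j ≠ j' → S j ≠ S j' := by
    intro j hj j' hj' hne h
    rcases lt_or_gt_of_ne hne with hlt | hlt
    · exact (hJ j' hj').1 j hlt h
    · exact (hJ j hj).1 j' hlt h.symm
  have h2 : (∑ j ∈ J, ((Finset.range t).filter (fun s => Y s = S j)).card) ≤ t := by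
    rw [← Finset.card_biUnion]
    · refine (Finset.card_le_card (t := Finset.range t) ?_).trans (by simp)
      intro x hx
      rw [Finset.mem_biUnion] at hx
      obtain ⟨j, _, hx⟩ := hx
      exact (Finset.mem_filter.1 hx).1
    · intro j hj j' hj' hne
      change Disjoint _ _
      rw [Finset.disjoint_left]
      intro x hx hx'
      exact hinj j hj j' hj' hne ((Finset.mem_filter.1 hx).2.symm.trans (Finset.mem_filter.1 hx').2)
  exact_mod_cast h2

end Pool.Agent.Helper87.BW
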